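import Mathlib
import Pool.Agent.Y372.Round

set_option autoImplicit false

namespace Pool.Agent.Results.MP_5f370d_co.FiveHomothets

/-- The Euclidean plane. -/
abbrev Plane : Type := EuclideanSpace ℝ (Fin 2)

/-- A plane convex body: a compact convex set with nonempty interior. -/
def IsPlaneConvexBody (K : Set Plane) : Prop :=
  IsCompact K ∧ Convex ℝ K ∧ (interior K).Nonempty

/-- The homothetic copy `x + r K`. -/
def homothet (K : Set Plane) (x : Plane) (r : ℝ) : Set Plane :=
  {y : Plane | ∃ k ∈ K, y = x + r • k}

/-- `K` is covered by `m` homothetic copies of itself with ratios in the open interval from `0`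
to `1/2`. -/
def CoverableBelowHalf (m : ℕ) (K : Set Plane) : Prop :=
  ∃ (x : Fin m → Plane) (r : Fin m → ℝ),
    (∀ i, 0 < r i ∧ r i < 1 / 2) ∧ K ⊆ ⋃ i, homothet K (x i) (r i)

/-- No plane convex body is covered by five homothetic copies of itself with positive ratios
smaller than one half: the affirmative answer to Q1. -/
theorem result : ∀ K : Set Plane, IsPlaneConvexBody K → ¬ CoverableBelowHalf 5 K := by
  rintro K ⟨hcomp, hconv, hint⟩ ⟨x, r, hr, hcov⟩
  refine Pool.Agent.Y372.no_five hcomp hconv hint x r hr ?_
  intro k hk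
  exact Set.mem_iUnion.mp (hcov hk)

end Pool.Agent.Results.MP_5f370d_co.FiveHomothets
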